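import Pool.Agent.Helper71.VIS.Trk
import Pool.Agent.Helper3.MX.Ud
import Pool.Agent.Helper81.CPY.Imim
import Pool.Agent.Helper81.MT.Trn

/-! ROBUST PROPERTIES (`AllE`: on all events of all extensions): events of extensions, extensions, one member. -/

set_option autoImplicit false

namespace Pool.Agent.Helper8.CPY

open Finset Filter Topology Matrix Pool.Agent.Helper69.RK Pool.Agent.Helper31.EC Pool.Agent.Helper31.EC.Sp
open Pool.Agent.Helper40.EL Pool.Agent.Helper84.MT Pool.Agent.Helper89.LX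
open Pool.Agent.Helper29.MX (Rsl AllE Ud Dfc Stb rpull rbot)
open Pool.Agent.Helper3.MX (imc)

noncomputable section

variable {S T : Sp} {M : ℕ} {E E' : ℕ → ℕ} {ι κ : Type}

/-- a property of systems on all events of all extensions -/
def AlE (P : ∀ S : Sp, MSys S M E ι → Prop) (S : Sp) (s : MSys S M E ι) : Prop :=
  ∀ (T : Sp) (p : Pj T S) (A : ∀ k, (T.F k).Ω → Prop) (hA : 0 < ul (T.pr A)), P (Sp.im p A) (s.im p A hA)

theorem AlE.mono {P P' : ∀ S : Sp, MSys S M E ι → Prop} (h : ∀ S s, P S s → P' S s) {s : MSys S M E ι}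
    (hs : AlE P S s) : AlE P' S s := fun T p A hA => h _ _ (hs T p A hA)

/-- EVENTS OF EXTENSIONS -/
theorem AlE.im {P : ∀ S : Sp, MSys S M E ι → Prop} {s : MSys S M E ι} (hs : AlE P S s) (p : Pj T S)
    (A : ∀ k, (T.F k).Ω → Prop) (hA : 0 < ul (T.pr A)) : AlE P (Sp.im p A) (s.im p A hA) := by
  intro T' p' A' hA'
  obtain ⟨W, q, B, hB, h⟩ := Pool.Agent.Helper81.CPY.im_im (M := M) (E := E) (ι := ι) p A hA p' A' hA'
  have h2 : (fun x : Σ S : Sp, MSys S M E ι => P x.1 x.2) ⟨_, s.im q B hB⟩ := hs W q B hB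
  rw [← h s] at h2
  exact h2

theorem pull_im_eq (s : MSys S M E ι) (q : Pj T S) {T' : Sp} (p : Pj T' T) (A : ∀ k, (T'.F k).Ω → Prop)
    (hA : 0 < ul (T'.pr A)) : (s.pull q).im p A hA = (s.im (p.comp q) A hA).pull (imc q p A) := rfl

/-- EXTENSIONS -/
theorem AlE.pull {P P' : ∀ S : Sp, MSys S M E ι → Prop}
    (h : ∀ (S T : Sp) (s : MSys S M E ι) (q : Pj T S), P S s → P' T (s.pull q)) {s : MSys S M E ι} (hs : AlE P S s)
    (q : Pj T S) : AlE P' T (s.pull q) := by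
  intro T' p A hA
  rw [pull_im_eq]
  exact h _ _ _ _ (hs T' (p.comp q) A hA)

/-- TRUNCATIONS -/
theorem AlE.trn {P P' : ∀ S : Sp, MSys S M E ι → Prop} {e : ℝ} (he : 0 < e) (h1 : e ≤ 1)
    (h : ∀ (S : Sp) (s : MSys S M E ι), P S s → P' (S.chg S.tr e he) (s.trn e he h1)) {s : MSys S M E ι}
    (hs : AlE P S s) : AlE P' (S.chg S.tr e he) (s.trn e he h1) := by
  intro T p A hA
  exact h _ _ (hs (Pool.Agent.Helper42.NS.unt p) (Pool.Agent.Helper42.NS.ptu p) A hA)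

/-! ### deficient points -/

/-- the entropy of the digits of a point -/
theorem H_dg_eq (Q : S.VV M) (b : ℝ) : H (Q.dg b) = ul (fun k => H (fc (Setoid.ker (Q.cellv b k))) / (S.F k).n) := by
  have e0 : Q.dg b = cl (Q.bdd b).toInf := io_eq (Q.bdd b)
  rw [e0, H_cl]
  congr 1
  funext k
  show (S.F k).e (Setoid.ker (Q.cellv b k)) (⊤ ⊓ (S.F k).Z) / (S.F k).n = _
  rw [top_inf_eq]
  rfl

theorem H_dg_vv (p : Pj T S) (Q : S.VV M) (b : ℝ) : H ((p.vv Q).dg b) = H (Q.dg b) := by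
  rw [H_dg_eq, H_dg_eq]
  congr 1
  funext k
  have e1 : (fc (Setoid.ker ((p.vv Q).cellv b k)) : FL (T.F k)) = (p.fp k).map (fc (Setoid.ker (Q.cellv b k))) := by
    rw [vv_cellv]
    rfl
  rw [e1, p.hn k]
  congr 1
  exact (p.fp k).H_map _

theorem ul_chg {f g : ℕ → ℝ} {e : ℝ} (he : 0 < e) (hfg : ∀ k, g k = f k) (hU : UB fun k => f k / (S.F k).n) :
    ul (fun k => g k / ((S.chg S.tr e he).F k).n) = ul (fun k => f k / (S.F k).n) / e := by
  have e1 : (fun k => g k / ((S.chg S.tr e he).F k).n) = fun k => e⁻¹ * (f k / (S.F k).n) := by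
    funext k
    show g k / (e * (S.F k).n) = _
    rw [hfg, mul_comm e, ← div_div, div_eq_inv_mul]
  rw [e1, ul_const_mul _ hU, div_eq_inv_mul]

theorem H_dg_chg (Q : S.VV M) (b : ℝ) {e : ℝ} (he : 0 < e) : H ((Q.chg S.tr e he).dg b) = H (Q.dg (e * b)) / e := by
  rw [H_dg_eq, H_dg_eq]
  refine ul_chg he (fun k => ?_) ?_
  · have e2 : (Q.chg S.tr e he).cellv b k = Q.cellv (e * b) k := Pool.Agent.Helper52.SL.cellv_chg Q e he b k
    rw [e2, ← h_bot, ← h_bot]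
    exact h_chg_top e he _ ⊤
  · have h1 := Pool.Agent.Helper3.MX.UB_cell Q (e * b) (fun _ => ⊥)
    simp_rw [h_bot] at h1
    exact h1

theorem dfc_im {b : ℝ} {s : MSys S M E ι} (hs : Dfc b s) (p : Pj T S) (A : ∀ k, (T.F k).Ω → Prop)
    (hA : 0 < ul (T.pr A)) : Dfc b (s.im p A hA) := AlE.im (P := fun _ t => H (t.Q.dg b) < M * b) hs p A hA

theorem dfc_pull {b : ℝ} {s : MSys S M E ι} (hs : Dfc b s) (p : Pj T S) : Dfc b (s.pull p) :=
  AlE.pull (P := fun _ t => H (t.Q.dg b) < M * b) (P' := fun _ t => H (t.Q.dg b) < M * b) (fun S T s q hq => by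
    show H ((q.vv s.Q).dg b) < M * b
    rw [H_dg_vv]
    exact hq) hs p

/-- systems with the same point -/
theorem dfc_pt {E' : ℕ → ℕ} {κ : Type} {b : ℝ} {s : MSys S M E ι} (hs : Dfc b s) {s' : MSys S M E' κ}
    (hQ : s'.Q = s.Q) : Dfc b s' := by
  intro T p A hA
  have h1 := hs T p A hA
  show H ((s'.Q.im p A).dg b) < M * b
  rw [hQ]
  exact h1

theorem dfc_trn {b e : ℝ} (he : 0 < e) (h1 : e ≤ 1) {s : MSys S M E ι} (hs : Dfc (e * b) s) :
    Dfc b (s.trn e he h1) :=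
  AlE.trn (P := fun _ t => H (t.Q.dg (e * b)) < M * (e * b)) (P' := fun _ t => H (t.Q.dg b) < M * b) he h1
    (fun S s hq => by
      show H ((s.Q.chg S.tr e he).dg b) < M * b
      rw [H_dg_chg, div_lt_iff₀ he]
      linarith) hs

/-! ### unit directions -/

/-- the property of one member -/
def UdP (v : ℕ) (j : ι) (S : Sp) (t : MSys S M E ι) : Prop := ∀ c c' : ℝ, 0 ≤ c → c ≤ c' → c' ≤ 1 →
  (v : ℝ) * (c' - c) ≤ ul (fun k => h (fc (Setoid.ker (t.Q.cellv c' k))) ((t.lf j).win c k) / (S.F k).n)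

theorem ud_ale {v : ℕ} {s : MSys S M E ι} {j : ι} : Ud v s j ↔ AlE (UdP v j) S s := Iff.rfl

theorem ud_im {v : ℕ} {s : MSys S M E ι} {j : ι} (hs : Ud v s j) (p : Pj T S) (A : ∀ k, (T.F k).Ω → Prop)
    (hA : 0 < ul (T.pr A)) : Ud v (s.im p A hA) j := AlE.im (P := UdP v j) hs p A hA

theorem udP_trn {v : ℕ} {j : ι} {e : ℝ} (he : 0 < e) (h1 : e ≤ 1) (S : Sp) (s : MSys S M E ι) (hs : UdP v j S s) :
    UdP v j (S.chg S.tr e he) (s.trn e he h1) := by
  intro c c' h0 hc hc'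
  have h2 := hs (e * c) (e * c') (mul_nonneg he.le h0) (mul_le_mul_of_nonneg_left hc he.le) (by nlinarith)
  have h3 := ul_chg (S := S) he (f := fun k => h (fc (Setoid.ker (s.Q.cellv (e * c') k))) ((s.lf j).win (e * c) k))
    (g := fun k => h (fc (F := (S.chg S.tr e he).F k) (Setoid.ker ((s.trn e he h1).Q.cellv c' k)))
      (((s.trn e he h1).lf j).win c k)) (fun k => by
      have e2 : (s.trn e he h1).Q.cellv c' k = s.Q.cellv (e * c') k :=
        Pool.Agent.Helper52.SL.cellv_chg s.Q e he c' k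
      have e3 : ((s.lf j).Y.chg S.tr e he).cellv c k = (s.lf j).Y.cellv (e * c) k :=
        Pool.Agent.Helper52.SL.cellv_chg (s.lf j).Y e he c k
      rw [e2]
      refine Eq.trans ?_ (h_chg_top e he (Setoid.ker (s.Q.cellv (e * c') k))
        ((s.lf j).La k ⊓ Setoid.ker ((s.lf j).Y.cellv (e * c) k)))
      exact congrArg (fun f => h (fc (F := (S.F k).chg ⊤ e he) (Setoid.ker (s.Q.cellv (e * c') k)))
        (fc (F := (S.F k).chg ⊤ e he) ((s.lf j).La k ⊓ Setoid.ker f))) e3)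
    (Pool.Agent.Helper3.MX.UB_cell s.Q (e * c') _)
  refine le_trans ?_ (le_of_eq h3.symm)
  rw [le_div_iff₀ he]
  linarith

theorem ud_trn {v : ℕ} {s : MSys S M E ι} {j : ι} (hs : Ud v s j) {e : ℝ} (he : 0 < e) (h1 : e ≤ 1) :
    Ud v (s.trn e he h1) j := AlE.trn (P := UdP v j) (P' := UdP v j) he h1 (udP_trn he h1) hs

end

end Pool.Agent.Helper8.CPY
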