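import Pool.Agent.Helper8.CPY.Nhc
import Pool.Agent.Helper87.NSL.St

/-! [COPY], part 2: the entropies of the copy and of the old point, on all events of all extensions. -/

set_option autoImplicit false

namespace Pool.Agent.Helper8.CPY

open Finset Filter Topology Matrix Pool.Agent.Helper69.RK Pool.Agent.Helper31.EC Pool.Agent.Helper31.EC.Sp
open Pool.Agent.Helper40.EL Pool.Agent.Helper84.MT Pool.Agent.Helper87.NSL Pool.Agent.Helper38.NSL
open Pool.Agent.Helper81.CPY (rsC ker_rsC Dtm_rsC cR)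

noncomputable section

variable {S T W : Sp} {M D : ℕ} {E E' : ℕ → ℕ} {ι κ κ' : Type}

/-- entropies of pulled partitions on an event of an extension of the extension -/
theorem h_im_pull (q : Pj W S) (p : Pj T W) (A : ∀ k, (T.F k).Ω → Prop) (X Y : Part S) (k : ℕ) :
    h ((X.pull q).im p A k) ((Y.pull q).im p A k) = h (X.im (p.comp q) A k) (Y.im (p.comp q) A k) := by
  have e1 : ∀ {U : Sp} (r : Pj T U) (X Y : Part U), h (X.im r A k) (Y.im r A k) =
      h ((T.F k).rmap (A k) ((r.fp k).map (X k))) ((T.F k).rmap (A k) ((r.fp k).map (Y k))) := by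
    intro U r X Y
    rw [← FSp.imp_imap, ← FSp.imp_imap, FPj.h_map]
    rfl
  rw [e1, e1]
  have e2 : ∀ X : Part S, ((p.comp q).fp k).map (X k) = (p.fp k).map ((X.pull q) k) := by
    intro X
    unfold Part.pull
    induction X k using fc_ind
    rfl
  rw [e2, e2]

/-- the cells of a point as an information -/
def cpt (Q : S.VV M) (c : ℝ) : Part S := fun k => fc (Setoid.ker (Q.cellv c k))

theorem cpt_pull (p : Pj T S) (Q : S.VV M) (c : ℝ) : cpt (p.vv Q) c = (cpt Q c).pull p := by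
  funext k
  show fc (Setoid.ker ((p.vv Q).cellv c k)) = (p.fp k).map (fc (Setoid.ker (Q.cellv c k)))
  rw [vv_cellv]
  rfl

theorem cpt_im (p : Pj T S) (A : ∀ k, (T.F k).Ω → Prop) (Q : S.VV M) (c : ℝ) : cpt (Q.im p A) c = (cpt Q c).im p A := rfl

/-- unit directions, in informations of the space -/
theorem ud_iff {v : ℕ} {s : MSys S M E ι} {j : ι} : Ud v s j ↔ ∀ (T : Sp) (p : Pj T S) (A : ∀ k, (T.F k).Ω → Prop),
    0 < ul (T.pr A) → ∀ c c' : ℝ, 0 ≤ c → c ≤ c' → c' ≤ 1 →
      (v : ℝ) * (c' - c) ≤ ul (fun k => h ((cpt s.Q c').im p A k) (((s.lf j).win c).im p A k) / (S.F k).n) := by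
  have e1 : ∀ (T : Sp) (p : Pj T S) (A : ∀ k, (T.F k).Ω → Prop) (hA : 0 < ul (T.pr A)) (c c' : ℝ) (k : ℕ),
      h (fc (Setoid.ker ((s.im p A hA).Q.cellv c' k))) (((s.im p A hA).lf j).win c k) / ((Sp.im p A).F k).n =
        h ((cpt s.Q c').im p A k) (((s.lf j).win c).im p A k) / (S.F k).n := by
    intro T p A hA c c' k
    have e2 : ((s.im p A hA).lf j).win c = ((s.lf j).win c).im p A := win_im p A hA (s.lf j) c
    rw [e2]
    rfl
  constructor
  · intro h T p A hA c c' h0 h1 h2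
    have h3 := h T p A hA c c' h0 h1 h2
    simp_rw [e1 T p A hA c c'] at h3
    exact h3
  · intro h T p A hA c c' h0 h1 h2
    simp_rw [e1 T p A hA c c']
    exact h T p A hA c c' h0 h1 h2

/-- UNIT DIRECTIONS of types which are pulled back along a projection `q`, together with the cells of the point -/
theorem ud_of_pull {v : ℕ} {s : MSys S M E ι} {j : ι} (h : Ud v s j) (q : Pj W S) (s' : MSys W M E' κ) (j' : κ)
    (hw : ∀ c, (s'.lf j').win c = ((s.lf j).win c).pull q)
    (hQ : ∀ c, ∀ᶠ k in UF, cpt s'.Q c k = (cpt s.Q c).pull q k) : Ud v s' j' := by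
  rw [ud_iff] at h ⊢
  intro T p A hA c c' h0 h1 h2
  refine (h T (p.comp q) A hA c c' h0 h1 h2).trans (le_of_eq ?_)
  apply ul_congr
  filter_upwards [hQ c'] with k hk
  have e1 : (cpt s'.Q c').im p A k = ((cpt s.Q c').pull q).im p A k := by
    show FSp.imap (p.fp k) (A k) (cpt s'.Q c' k) = FSp.imap (p.fp k) (A k) ((cpt s.Q c').pull q k)
    rw [hk]
  rw [e1, hw c, h_im_pull, q.hn k]

theorem ud_pull {v : ℕ} {s : MSys S M E ι} {j : ι} (h : Ud v s j) (q : Pj W S) : Ud v (s.pull q) j :=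
  ud_of_pull h q _ j (fun c => win_pull q (s.lf j) c) fun c => Eventually.of_forall fun k => congrFun (cpt_pull q s.Q c) k

/-- the old types of the system with the copy -/
theorem ud_old {v : ℕ} {s : MSys S M E ι} {j : ι} (h : Ud v s j) {R : ∀ k, Setoid (S.F k).Ω} (hC : Dtm s.Q (rsC R))
    (l : κ → Leaf S s.Q E) : Ud v (s.cpy (rsC R) hC l) (Sum.inl j) :=
  ud_of_pull h (cpd (rsC R)).p1 _ _ (fun c => win_pull (cpd (rsC R)).p1 (s.lf j) c) fun c =>
    Eventually.of_forall fun k => congrFun (cpt_pull (cpd (rsC R)).p1 s.Q c) k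

/-- the new types of the system with the copy, if the point is literal in the resolution -/
theorem ud_new {v : ℕ} {s : MSys S M E ι} {j : ι} (h : Ud v s j) {R : ∀ k, Setoid (S.F k).Ω} (hR : KnS R s.Q.v)
    (hC : Dtm s.Q (rsC R)) {l : κ → Leaf S s.Q E} {a : κ} (hl : l a = s.lf j) :
    Ud v (s.cpy (rsC R) hC l) (Sum.inr a) := by
  refine ud_of_pull h (cpd (rsC R)).p2 _ _ (fun c => ?_) fun c => ?_
  · have e1 := (l a).cpy_win (rsC R) hC c
    rw [hl] at e1
    show ((l a).cpy (rsC R) hC).win c = _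
    rw [hl]
    exact e1
  · filter_upwards [hR] with k hk
    have e1 : cpt (s.cpy (rsC R) hC l).Q c k = (cpt s.Q c).pull (cpd (rsC R)).p1 k :=
      congrFun (cpt_pull (cpd (rsC R)).p1 s.Q c) k
    rw [e1]
    refine cpd_common (rsC R) k (Setoid.ker (s.Q.cellv c k)) fun ω ω' a b hZ hc => ?_
    have h1 := hk ω ω' a b hZ (Quotient.exact hc)
    show s.Q.cellv c k ω = s.Q.cellv c k ω'
    unfold Sp.VV.cellv
    rw [h1]

end

end Pool.Agent.Helper8.CPY
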