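import Pool.Agent.Helper29.MX.St
import Pool.Agent.Helper81.CPY.Inv

/-! TRANSVERSAL PAIRS OF TYPES (`Trp` of helper29): labels without leak at the types have no leak at the resolution (double
Markov); closure under events of extensions, truncations, more types, changes of the point, base changes, zooms. -/

set_option autoImplicit false

namespace Pool.Agent.Helper8.CPY

open Finset Filter Topology Matrix Pool.Agent.Helper69.RK Pool.Agent.Helper31.EC Pool.Agent.Helper31.EC.Sp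
open Pool.Agent.Helper40.EL Pool.Agent.Helper84.MT Pool.Agent.Helper87.NSL Pool.Agent.Helper38.NSL
open Pool.Agent.Helper29.MX (Rsl Trp TLb rpull rover Nrq vis)
open Pool.Agent.Helper81.CPY (nul_leak_mono)
open Pool.Agent.Helper87.NSL (Inv1 Inv2)

noncomputable section

variable {S T : Sp} {M : ℕ} {E E' : ℕ → ℕ} {ι κ : Type}

/-- DOUBLE MARKOV in one lattice -/
theorem dbl_markov {L : Type*} [PM L] {v o a b c : L} (ha : a ≤ o) (hb : b ≤ o) (hc : c ≤ o) :
    I v o c ≤ I a b c + I v o a + I v o b := by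
  have h1 : I v (a ⊔ o) c = I v a c + I v o (a ⊔ c) := I_chain_right v a o c
  rw [sup_eq_right.mpr ha] at h1
  have h2 : I v o (a ⊔ c) ≤ I v o a := leak_cond le_sup_left (sup_le ha hc)
  have h3 : I (b ⊔ v) a c = I b a c + I v a (b ⊔ c) := I_chain b v a c
  have h4 : I v a c ≤ I (b ⊔ v) a c := I_mono_left (le_sup_right.trans le_sup_left)
  have h5 : I v a (b ⊔ c) ≤ I v o (b ⊔ c) := I_mono_right (ha.trans le_sup_left)
  have h6 : I v o (b ⊔ c) ≤ I v o b := leak_cond le_sup_left (sup_le hb hc)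
  rw [I_comm b a c] at h3
  linarith

/-- the leak of a label at `c` -/
theorem fleak_dm {F : FSp} (l : FLab F) (a b c : FL F) : l.leak c ≤ I a b c + l.leak a + l.leak b := by
  have h1 := dbl_markov (v := l.v) (l.p.map_le_top a) (l.p.map_le_top b) (l.p.map_le_top c)
  rw [l.p.I_map] at h1
  exact h1

/-- a label without leak at `A` and at `B`, which are independent given `C`, has no leak at `C` -/
theorem nul_leak_of_NI {A B C : Part S} (h : NI A B C) {l : Lab S} (hA : Nul S fun k => (l k).leak (A k))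
    (hB : Nul S fun k => (l k).leak (B k)) : Nul S fun k => (l k).leak (C k) := by
  refine ((Nul.add h hA).add hB).of_le (Eventually.of_forall fun k => FLab.leak_nonneg _ _)
    (Eventually.of_forall fun k => fleak_dm (l k) (A k) (B k) (C k))

/-- TYPE-LABELS HAVE NO LEAK AT THE RESOLUTION of a transversal pair -/
theorem trp_leak {s : MSys S M E ι} {R : Rsl S} (h : Trp s R) {c : ℝ} (hc : c ≤ 1) {l : Lab S} (hl : TLb s c l) :
    Nul S fun k => (l k).leak (fc (R k)) := by
  obtain ⟨i, j, hij⟩ := h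
  exact nul_leak_of_NI hij (nul_leak_mono ((s.lf i).win_mono hc) (hl i)) (nul_leak_mono ((s.lf j).win_mono hc) (hl j))

/-- monotonicity: all types are kept, their windows `1` may become coarser -/
theorem trp_of {M' : ℕ} {s : MSys S M E ι} {s' : MSys S M' E' κ} {R : Rsl S} (h : Trp s R) (f : ι → κ)
    (hf : ∀ i, PLe ((s'.lf (f i)).win 1) ((s.lf i).win 1)) : Trp s' R := by
  obtain ⟨i, j, hij⟩ := h
  refine ⟨f i, f j, ?_⟩
  exact (NI.mono_left hij ((hf i).trans (PLe_left _ _))).mono_right ((hf j).trans (PLe_left _ _))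

/-- other resolutions, which know the old one up to rate zero -/
theorem trp_res {s : MSys S M E ι} {R R' : Rsl S} (h : Trp s R) (h1 : PLe (fun k => fc (R k)) (fun k => fc (R' k)))
    (h2 : PLe (fun k => fc (R' k)) (fun k => fc (R k))) : Trp s R' := by
  obtain ⟨i, j, hij⟩ := h
  exact ⟨i, j, NI.congr hij h1 h2⟩

/-- EVENTS OF EXTENSIONS -/
theorem trp_im {s : MSys S M E ι} {R : Rsl S} (h : Trp s R) (p : Pj T S) (A : ∀ k, (T.F k).Ω → Prop)
    (hA : 0 < ul (T.pr A)) : Trp (s.im p A hA) R := by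
  obtain ⟨i, j, hij⟩ := h
  refine ⟨i, j, ?_⟩
  have h1 := NI.im hij p A hA
  have e1 : ((s.im p A hA).lf i).win 1 = ((s.lf i).win 1).im p A := win_im p A hA (s.lf i) 1
  have e2 : ((s.im p A hA).lf j).win 1 = ((s.lf j).win 1).im p A := win_im p A hA (s.lf j) 1
  rw [e1, e2]
  exact h1

/-- EXTENSIONS -/
theorem trp_pull {s : MSys S M E ι} {R : Rsl S} (h : Trp s R) (p : Pj T S) : Trp (s.pull p) (rpull p R) := by
  obtain ⟨i, j, hij⟩ := h
  refine ⟨i, j, ?_⟩
  have h1 := NI.pull hij p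
  have e1 : ((s.pull p).lf i).win 1 = ((s.lf i).win 1).pull p := win_pull p (s.lf i) 1
  have e2 : ((s.pull p).lf j).win 1 = ((s.lf j).win 1).pull p := win_pull p (s.lf j) 1
  rw [e1, e2]
  exact h1

/-- TRUNCATIONS -/
theorem trp_trn {s : MSys S M E ι} {R : Rsl S} (h : Trp s R) {e : ℝ} (he : 0 < e) (h1 : e ≤ 1) :
    Trp (s.trn e he h1) (fun k => R k) := by
  obtain ⟨i, j, hij⟩ := h
  have hw : ∀ i, PLe ((s.lf i).win (e * 1)) ((s.lf i).win 1) := fun i => (s.lf i).win_mono (by linarith)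
  have h2 : NI ((s.lf i).win (e * 1)) ((s.lf j).win (e * 1)) (pof R) :=
    (NI.mono_left hij ((hw i).trans (PLe_left _ _))).mono_right ((hw j).trans (PLe_left _ _))
  have h3 : Inv2 s R (e * 1) i j := h2
  exact ⟨i, j, Pool.Agent.Helper81.CPY.inv2_trn.mpr h3⟩

/-- MORE TYPES, on extensions (the form of `OkA.add`) -/
theorem trp_add {s : MSys S M E ι} {R : Rsl S} (h : Trp s R) (p : Pj T S) (hg : ∀ D, E D ≤ E' D)
    (L : κ → Leaf T (p.vv s.Q) E') (f : ι → κ) (hL : ∀ i, L (f i) = ((s.lf i).pull p).monoE hg) :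
    Trp (⟨p.vv s.Q, L⟩ : MSys T M E' κ) (rpull p R) := by
  refine trp_of (trp_pull h p) f fun i => ?_
  show PLe ((L (f i)).win 1) (((s.lf i).pull p).win 1)
  rw [hL i]
  exact PLe.refl _

/-- SYSTEMS OVER A LABEL which has no leak at the resolution: the windows `1` of the system over the label are known to the
windows `1` of the old system -/
theorem trp_over {M' : ℕ} {s : MSys S M E ι} {R : Rsl S} (h : Trp s R) (l : Lab S) {e : ℝ} (he : 0 < e)
    (hl : Nul S fun k => (l k).leak (fc (R k))) (t : MSys (l.ovr e he) M' E' κ) (f : ι → κ)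
    (hw : ∀ i, PLe ((t.lf (f i)).win 1) (l.up e he ((s.lf i).win 1))) : Trp t (rover l e he R) := by
  obtain ⟨i, j, hij⟩ := h
  refine ⟨f i, f j, ?_⟩
  have h1 := NI.up_cond hij l hl e he
  exact (NI.mono_left h1 ((hw i).trans (PLe_left _ _))).mono_right ((hw j).trans (PLe_left _ _))

/-- the windows of a label space are monotone -/
theorem up_win_mono (l : Lab S) {e : ℝ} (he : 0 < e) {Q : S.VV M} (f : Leaf S Q E) {a b : ℝ} (hab : a ≤ b) :
    PLe (l.up e he (f.win a)) (l.up e he (f.win b)) := Lab.PLe_up l e he (f.win_mono hab)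

/-- BASE CHANGES (helper24's `ovl`) over type-labels of the window `0` -/
theorem trp_bas {s : MSys S M E ι} {R : Rsl S} (h : Trp s R) (l : Lab S)
    (hl : ∀ i, Nul S fun k => (l k).leak ((s.lf i).win 0 k)) :
    Trp (Pool.Agent.Helper24.PR.ovl s l hl) (rover l 1 one_pos R) := by
  refine trp_over h l one_pos (trp_leak h zero_le_one hl) _ id fun i => ?_
  show PLe ((Pool.Agent.Helper24.PR.lov (s.lf i) l (hl i)).win 1) (l.up 1 one_pos ((s.lf i).win 1))
  rw [Pool.Agent.Helper24.PR.lov_win]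
  exact PLe.refl _

/-- ZOOMS with the relation of windows (`Gz` of helper36) over labels of the window `c` -/
theorem trp_gz {s : MSys S M E ι} {R : Rsl S} (h : Trp s R) {c e : ℝ} {he : 0 < e} {l : Lab S}
    (hl : TLb s c l) {X : l.sp.VV M} {t : MSys (l.ovr e he) M E' ι}
    (hG : Pool.Agent.Helper36.AM.Gz s l c e he X t) (hce : c + e ≤ 1) : Trp t (rover l e he R) := by
  refine trp_over h l he (trp_leak h (by linarith) hl) t id fun i => ?_
  exact (hG.win 1 i zero_le_one le_rfl).1.trans (up_win_mono l he (s.lf i) (by linarith))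

/-- ROW ZOOMS (`RW` of helper7) -/
theorem trp_rw {M' : ℕ} {s : MSys S M E ι} {R : Rsl S} (h : Trp s R) (z : Pool.Agent.Helper7.RD.RW s M') :
    Trp z.sys (rover z.Z.l z.Z.u z.Z.hu R) := by
  have h2 := z.Z.hu
  have h3 := z.Z.h1
  refine trp_over h z.Z.l z.Z.hu (trp_leak h (by linarith) z.dm) z.sys id fun i => ?_
  exact PLe.trans (S := z.Z.sp) (z.win_le i zero_le_one) (up_win_mono z.Z.l z.Z.hu (s.lf i) (by linarith))

/-! ### diagonals -/

/-- the information of two windows given the resolution, finite data -/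
def ipF (F : FSp) (x : Pool.Agent.Helper49.MD.FMs F.Ω M ι) (R : Setoid F.Ω) (a b : ι) : ℝ :=
  I (Pool.Agent.Helper49.MD.FMs.cnd F x 1 (some a)) (Pool.Agent.Helper49.MD.FMs.cnd F x 1 (some b)) (fc R)

theorem ev_const [Finite ι] (a : ℕ → ι) : ∃ e : ι, ∀ᶠ k in UF, a k = e := by
  obtain ⟨n, ⟨f⟩⟩ := Finite.exists_equiv_fin ι
  obtain ⟨e, he, h1⟩ := Pool.Agent.Helper49.MD.exists_const_nat (fun k => (f (a k) : ℕ)) n
    (Eventually.of_forall fun k => (f (a k)).2.le)
  obtain ⟨k0, hk0⟩ := h1.exists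
  refine ⟨a k0, ?_⟩
  filter_upwards [h1] with k hk
  exact f.injective (Fin.ext (hk.trans hk0.symm))

/-- DIAGONALS: a class of pairs closed under diagonals, with transversal pairs of types -/
theorem trp_dg [Finite ι] {P : ∀ S : Sp, MSys S M E ι → (∀ k, Setoid (S.F k).Ω) → Prop}
    (hP : Pool.Agent.Helper49.MD.DiagCl (Pool.Agent.Helper47.FN.lftR P)) :
    Pool.Agent.Helper49.MD.DiagCl (Pool.Agent.Helper47.FN.lftR fun S s R => P S s R ∧ Trp s R) := by
  intro S x hx
  have hx1 : ∀ j, Pool.Agent.Helper47.FN.lftR P (S j) (x j) := fun j => by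
    obtain ⟨s, R, h1, h2, h3⟩ := hx j
    exact ⟨s, R, h1, h2, h3.1⟩
  obtain ⟨E1, hE1, hJ1⟩ := hP S x hx1
  have hab : ∀ j, ∃ ab : ι × ι, ∀ i : ℕ, ∀ᶠ k in UF, ipF ((S j).F k)
      (x j k : Pool.Agent.Helper49.MD.FMs ((S j).F k).Ω M ι × Setoid ((S j).F k).Ω).1
      (x j k : Pool.Agent.Helper49.MD.FMs ((S j).F k).Ω M ι × Setoid ((S j).F k).Ω).2 ab.1 ab.2 ≤
        1 / ((i : ℝ) + 1) * ((S j).F k).n := by
    intro j
    obtain ⟨s, R, h1, h2, -, a, b, hab⟩ := hx j
    refine ⟨(a, b), fun i => ?_⟩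
    have h3 := hab
    have h4 : ∀ᶠ k in UF, I ((s.lf a).win 1 k) ((s.lf b).win 1 k) (fc (R k)) / ((S j).F k).n < 1 / ((i : ℝ) + 1) :=
      h3.eventually (gt_mem_nhds (by positivity))
    filter_upwards [h4, Pool.Agent.Helper49.MD.giv_cnd h1 1 (some a), Pool.Agent.Helper49.MD.giv_cnd h1 1 (some b),
      h2] with k e1 e2 e3 e4
    have hn := ((S j).F k).pos
    unfold ipF
    rw [← e2, ← e3, ← e4]
    rw [div_lt_iff₀ hn] at e1
    exact e1.le
  choose ab hab2 using hab
  refine ⟨fun i j k => E1 i j k ∧ ipF ((S j).F k)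
      (x j k : Pool.Agent.Helper49.MD.FMs ((S j).F k).Ω M ι × Setoid ((S j).F k).Ω).1
      (x j k : Pool.Agent.Helper49.MD.FMs ((S j).F k).Ω M ι × Setoid ((S j).F k).Ω).2 (ab j).1 (ab j).2 ≤
        1 / ((i : ℝ) + 1) * ((S j).F k).n, fun i j => (hE1 i j).and (hab2 j i), fun J h => ?_⟩
  obtain ⟨t, R', g1, g2, g3⟩ := hJ1 J h.left
  refine ⟨t, R', g1, g2, g3, ?_⟩
  obtain ⟨e, he⟩ := ev_const fun k => ab (J k)
  refine ⟨e.1, e.2, ?_⟩
  refine Pool.Agent.Helper47.FN.nul_of (fun k => I_nonneg _ _ _) fun δ hδ => ?_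
  obtain ⟨i, hi⟩ := exists_nat_one_div_lt hδ
  filter_upwards [h.right.slow i, he, Pool.Agent.Helper49.MD.giv_cnd g1 1 (some e.1),
    Pool.Agent.Helper49.MD.giv_cnd g1 1 (some e.2), g2] with k a1 a2 a3 a4 a5
  have hn := ((S (J k)).F k).pos
  have a6 : I ((t.lf e.1).win 1 k) ((t.lf e.2).win 1 k) (fc (R' k)) ≤ 1 / ((i : ℝ) + 1) * ((S (J k)).F k).n := by
    have b1 : (t.lf e.1).win 1 k = _ := a3
    have b2 : (t.lf e.2).win 1 k = _ := a4
    rw [b1, b2, a5]
    rw [a2] at a1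
    exact a1
  exact a6.trans (mul_le_mul_of_nonneg_right hi.le hn.le)

end

end Pool.Agent.Helper8.CPY
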