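import Pool.Agent.Helper8.CPY.Cp0
import Pool.Agent.Helper3.MX.Stkq

/-! [COPY0] in the language of MX: the hypotheses of NSLs from `OkA` and the structure theorem with `v + 1` unit
directions. -/

set_option autoImplicit false

namespace Pool.Agent.Helper8.CPY

open Finset Filter Topology Matrix Pool.Agent.Helper69.RK Pool.Agent.Helper31.EC Pool.Agent.Helper31.EC.Sp
open Pool.Agent.Helper40.EL Pool.Agent.Helper84.MT Pool.Agent.Helper87.NSL Pool.Agent.Helper38.NSL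
open Pool.Agent.Helper3.LF Pool.Agent.Helper89.LX
open Pool.Agent.Helper81.CPY (rsC ker_rsC Dtm_rsC cR)
open Pool.Agent.Helper29.MX (Rsl Dfc Stb AllE KAd KOp volKO volK rbot OkA Cv Inv Pt vis cndR_eq)
open Pool.Agent.Helper36.AM (MCl STu STO)

noncomputable section

variable {S : Sp} {N v g r : ℕ} {A : MCl N}

/-- the K-labels of helper87 are the K-labels of helper29, window `0` -/
theorem klb_of {M : ℕ} {E : ℕ → ℕ} {ι : Type} {s : MSys S M E ι} {R : Rsl S} {l : Lab S}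
    (hl : Pool.Agent.Helper87.NSL.KLb s R l) : Pool.Agent.Helper29.MX.KLb s R 0 l := by
  refine ⟨fun i => ?_, hl.ex⟩
  rcases i with _ | i
  · refine Tendsto.congr' ?_ tendsto_const_nhds
    filter_upwards [hl.ex] with k hk
    show (0 : ℝ) = (l k).leak (fc (R k)) / (S.F k).n
    rw [hk, zero_div]
  · exact hl.nul i

/-- THE GOOD SYSTEMS OF NSLs -/
theorem okA_gd (hA : OkA N A) (hst : ∀ m, m < N → STu m) (hs : STO N (Cv A (v + 1))) :
    ∀ (S : Sp) (g r : ℕ) (s : MSys S N (lin g) (Fin r)), 1 ≤ g → 0 < r → A S g r s → UDe (v + 1) s → Gd s := by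
  intro S g r s _ hr hs' hu ε hε
  obtain ⟨D₁, hD⟩ := Pool.Agent.Helper3.MX.stvg hA hst hs g
  refine ⟨max D₁ 1, le_max_right _ _, fun x hx l hl => ?_⟩
  have h1 := hD (max D₁ 1) (le_max_left _ _) S r s ⟨hs', ⟨⟨0, hr⟩⟩, hu⟩ x hx l (klb_of hl)
  linarith

/-- **[COPY0]**, language of MX -/
theorem copy0_mx (hN : NSLs N) (hA : OkA N A) (hst : ∀ m, m < N → STu m) (hs : STO N (Cv A (v + 1))) (hg : 1 ≤ g)
    {s : MSys S N (lin g) (Fin r)} {R : Rsl S} (hcl : Cv A v S g r s) (hR : Pt s R)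
    (hdfc : ∀ b : ℝ, 0 < b → b ≤ 1 → Dfc b s) {w : ℝ}
    (hw : ∀ c : ℝ, 0 < c → c ≤ 1 → AllE (fun _ t R' => (N : ℝ) - w * c ≤ volKO t R' c) S s R)
    (hC : Dtm s.Q (rsC R)) (i0 : Fin r) : Stb 0 (s.cpy (rsC R) hC (fun _ : Unit => s.lf i0)) (rbot _) :=
  copy0' hN hst hg hA.im hA.sub hA.trn (okA_gd hA hst hs) hcl.1 hR hcl.2.2 hdfc hw hC i0

end

end Pool.Agent.Helper8.CPY
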