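import Pool.Agent.Helper8.CPY.Ent
import Pool.Agent.Helper8.CPY.AllE
import Pool.Agent.Helper14.NHG.Cl
import Pool.Agent.Helper29.MX.Bas
import Pool.Agent.Helper52.MW.Ime

/-! [COPY0]. THE COPY OF ONE TYPE GIVEN A RESOLUTION: if the K-volumes (resolution `R`) of a pair `(s, R)` are at least
`N - w * c` at the windows `c`, on all events, then the system with the copy of one type given `R` is stable for the
type-labels (by NSLs). -/

set_option autoImplicit false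

namespace Pool.Agent.Helper8.CPY

open Finset Filter Topology Matrix Pool.Agent.Helper69.RK Pool.Agent.Helper31.EC Pool.Agent.Helper31.EC.Sp
open Pool.Agent.Helper40.EL Pool.Agent.Helper84.MT Pool.Agent.Helper87.NSL Pool.Agent.Helper38.NSL
open Pool.Agent.Helper3.LF Pool.Agent.Helper89.LX
open Pool.Agent.Helper81.CPY (rsC ker_rsC Dtm_rsC cR)
open Pool.Agent.Helper14.NHG (NHC nhc_of_stab')
open Pool.Agent.Helper29.MX (Rsl Dfc Stb AllE KAd KOp volKO volK rbot)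
open Pool.Agent.Helper80.SUB (Sub SubCl)
open Pool.Agent.Helper36.AM (MCl STu)

noncomputable section

variable {S T : Sp} {N M D g r : ℕ} {E E' : ℕ → ℕ} {ι κ κ' : Type}

/-! ### transversality at all windows -/

theorem nhc_iff {s : MSys S M E ι} {R : ∀ k, Setoid (S.F k).Ω} {K K' : ℝ} :
    NHC s D R (fun i => i) K K' ↔ ∀ c : ℝ, 0 < c → c ≤ 1 → NHEt s.Q D (optW R fun i => wn s c i) K (K' * c) :=
  ⟨fun h c hc hc1 e γ p he hγ hp => h c e γ p hc hc1 he hγ hp, fun h c e γ p hc hc1 he hγ hp => h c hc hc1 e γ p he hγ hp⟩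

/-- events of extensions, any family -/
theorem nhc_pull {s : MSys S M E ι} {R : ∀ k, Setoid (S.F k).Ω} {K K' : ℝ} (h : NHC s D R (fun i => i) K K')
    (p : Pj T S) : NHC (s.pull p) D (p.pb R) (fun i => i) K K' := by
  rw [nhc_iff] at h ⊢
  intro c hc hc1
  refine (h c hc hc1).pull p |>.ren (fun o => o) (Eventually.of_forall fun k o ω ω' _ _ _ hw => ?_)
  cases o with
  | none => exact hw
  | some i =>
    refine ⟨hw.1, ?_⟩
    show (p.vv (s.lf i).Y).cellv c k ω = (p.vv (s.lf i).Y).cellv c k ω'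
    rw [vv_cellv p (s.lf i).Y c k]
    exact hw.2

/-- the copy, all windows -/
theorem nhc_cpy {s : MSys S M E ι} {R : ∀ k, Setoid (S.F k).Ω} (hC : Dtm s.Q (rsC R)) {K K' : ℝ}
    (h : NHC s D R (fun i => i) K K') (i0 : ι) (f : κ → ι ⊕ Unit) (hf : Function.Surjective f)
    (R' : ∀ k, Setoid ((cpd (rsC R)).sp.F k).Ω) :
    NHC ((s.cpy (rsC R) hC (fun _ : Unit => s.lf i0)).ren f) D R' (fun i => i) K K' := by
  rw [nhc_iff] at h ⊢
  exact fun c hc hc1 => nhet_opt (nhet_cpy_ren hC (h c hc hc1) i0 f hf) R'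

/-- truncations by any level -/
theorem hasE_chg_one {F : FSp} {Q : F.Ω → Fin M → ℝ} {W : κ → Setoid F.Ω} {e γ p : ℝ}
    (h : HasE (F.chg ⊤ 1 one_pos) M D Q W e γ p) : HasE F M D Q W e γ p := by
  have key : ∀ (Ω : Type) (ft : Fintype Ω) (μ : Ω → ℝ) (nn : ∀ ω, 0 ≤ μ ω) (ms : mass μ = 1) (Z Z' : Setoid Ω)
      (n n' : ℝ) (pos : 0 < n) (pos' : 0 < n') (Q : Ω → Fin M → ℝ) (W : κ → Setoid Ω), Z = Z' → n = n' →
      HasE (⟨Ω, ft, μ, nn, ms, Z, n, pos⟩ : FSp) M D Q W e γ p →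
        HasE (⟨Ω, ft, μ, nn, ms, Z', n', pos'⟩ : FSp) M D Q W e γ p := by
    intro Ω ft μ nn ms Z Z' n n' pos pos' Q W h1 h2
    subst h1
    subst h2
    exact id
  exact key F.Ω F.ft F.μ F.nn F.ms (⊤ ⊓ F.Z) F.Z (1 * F.n) F.n (mul_pos one_pos F.pos) F.pos Q W (top_inf_eq _)
    (one_mul _) h

theorem nhc_trn {s : MSys S M E ι} {R : ∀ k, Setoid (S.F k).Ω} {K K' : ℝ} (h : NHC s D R (fun i => i) K K')
    (hK : 0 ≤ K) {e : ℝ} (he : 0 < e) (h1 : e ≤ 1) : NHC (s.trn e he h1) D R (fun i => i) K K' := by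
  rcases lt_or_eq_of_le h1 with h2 | h2
  · exact h.trn hK he h2
  · subst h2
    intro c e' γ p hc hc1 he' hγ hp
    filter_upwards [h c e' γ p hc hc1 he' hγ hp] with k hk hE
    apply hk
    have e1 : (fun i => optW (S := S.chg S.tr 1 he) R (fun j => wn (s.trn 1 he h1) c j) i k) =
        fun i => optW R (fun j => wn s c j) i k := by
      funext i
      cases i with
      | none => rfl
      | some j =>
        have e2 : ((s.lf j).Y.chg S.tr 1 he).cellv c k = (s.lf j).Y.cellv (1 * c) k :=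
          Pool.Agent.Helper52.SL.cellv_chg (s.lf j).Y 1 he c k
        rw [one_mul] at e2
        exact congrArg (fun f => (s.lf j).La k ⊓ Setoid.ker f) e2
    rw [e1] at hE
    exact hasE_chg_one hE

/-! ### the class -/

/-- PAIRS `(s, R)` of the class `Cl`: the point is literal in `R`, unit directions, deficient at all levels, transversal
at all windows `c > 0` with a loss proportional to `c` (helper87's `TTc`, by properties) -/
structure CpT (Cl : MCl N) (v : ℕ) (K K' : ℕ → ℝ) (S : Sp) (s : MSys S N (lin g) (Fin r))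
    (R : ∀ k, Setoid (S.F k).Ω) : Prop where
  cl : Cl S g r s
  lit : KnS R s.Q.v
  ud : ∀ j, Pool.Agent.Helper29.MX.Ud v s j
  dfc : ∀ b : ℝ, 0 < b → b ≤ 1 → Dfc b s
  nh : ∀ D : ℕ, NHC s D R (fun i => i) (K D) (K' D)

variable {Cl : MCl N} {v : ℕ} {K K' : ℕ → ℝ}

theorem CpT.pull' {s : MSys S N (lin g) (Fin r)} {R : ∀ k, Setoid (S.F k).Ω} (hs : CpT Cl v K K' S s R)
    (hSub : SubCl Cl) (p : Pj T S) : CpT Cl v K K' T (s.pull p) (p.pb R) where
  cl := hSub _ _ _ _ hs.cl _ _ _ _ _ (Sub.pull s p)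
  lit := by
    filter_upwards [hs.lit] with k hk ω ω' a b hz hr
    exact hk _ _ (p.supp k ω a) (p.supp k ω' b) ((p.hZ k ω ω' a b).1 hz) hr
  ud := fun j => ud_pull (hs.ud j) p
  dfc := fun b h0 h1 => dfc_pull (hs.dfc b h0 h1) p
  nh := fun D => nhc_pull (hs.nh D) p

theorem CpT.im' {s : MSys S N (lin g) (Fin r)} {R : ∀ k, Setoid (S.F k).Ω} (hs : CpT Cl v K K' S s R)
    (hIm : ImCl N Cl) (p : Pj T S) (A : ∀ k, (T.F k).Ω → Prop) (hA : 0 < ul (T.pr A)) :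
    CpT Cl v K K' (Sp.im p A) (s.im p A hA) R where
  cl := hIm _ _ _ _ hs.cl _ _ _ _
  lit := by
    filter_upwards [hs.lit] with k hk ω ω' a b hz hr
    exact hk _ _ (FSp.im_supp (p.fp k) (A k) ω a) (FSp.im_supp (p.fp k) (A k) ω' b) hz hr
  ud := fun j => ud_im (hs.ud j) p A hA
  dfc := fun b h0 h1 => dfc_im (hs.dfc b h0 h1) p A hA
  nh := fun D => (hs.nh D).im p A hA

theorem CpT.trn' {s : MSys S N (lin g) (Fin r)} {R : ∀ k, Setoid (S.F k).Ω} (hs : CpT Cl v K K' S s R)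
    (hTr : ∀ (S : Sp) (s : MSys S N (lin g) (Fin r)), Cl S g r s → ∀ (e : ℝ) (he : 0 < e) (h1 : e ≤ 1),
      Cl (S.chg S.tr e he) g r (s.trn e he h1)) (hK : ∀ D, 0 ≤ K D) {e : ℝ} (he : 0 < e) (h1 : e ≤ 1) :
    CpT Cl v K K' (S.chg S.tr e he) (s.trn e he h1) R where
  cl := hTr _ _ hs.cl e he h1
  lit := by
    filter_upwards [hs.lit] with k hk ω ω' a b hz hr
    exact hk ω ω' a b hz.2 hr
  ud := fun j => ud_trn (hs.ud j) he h1
  dfc := fun b h0 hb => dfc_trn he h1 (hs.dfc (e * b) (mul_pos he h0) (by nlinarith))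
  nh := fun D => nhc_trn (hs.nh D) (hK D) he h1

theorem CpT.lt' {s : MSys S N (lin g) (Fin r)} {R : ∀ k, Setoid (S.F k).Ω} (hs : CpT Cl v K K' S s R) :
    H (s.Q.dg 1) < N := by
  have h1 : AllE (fun _ t _ => H (t.Q.dg 1) < N * 1) S s R := hs.dfc 1 one_pos le_rfl
  have h2 := Pool.Agent.Helper52.MW.AllE_self h1
  rwa [mul_one] at h2

/-- the class is a class of NSLs -/
theorem cpT_ttc (hg : 1 ≤ g) (hr : 0 < r) (hK : ∀ D, 0 ≤ K D) (hIm : ImCl N Cl) (hSub : SubCl Cl)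
    (hTr : ∀ (S : Sp) (s : MSys S N (lin g) (Fin r)), Cl S g r s → ∀ (e : ℝ) (he : 0 < e) (h1 : e ≤ 1),
      Cl (S.chg S.tr e he) g r (s.trn e he h1)) : TTc Cl v K K' (CpT (g := g) (r := r) Cl v K K') where
  g1 := hg
  r0 := hr
  K0 := hK
  pull := fun _ _ _ hs _ p => hs.pull' hSub p
  im := fun _ _ _ hs _ p A hA => hs.im' hIm p A hA
  trn := fun _ _ _ hs _ he h1 => hs.trn' hTr hK he h1
  lit := fun _ _ _ hs => hs.lit
  cl := fun _ _ _ hs => hs.cl
  ud := fun _ _ _ hs => hs.ud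
  lt := fun _ _ _ hs => hs.lt'
  nh := fun _ _ _ hs => hs.nh

/-- the volume from the optimal forms -/
theorem volKO_ge_of [Finite ι] (s : MSys S M E ι) (R : Rsl S) {a : ℝ} {c : ℝ} (ha : a ≤ M)
    (h1 : ∀ D : ℕ, 1 ≤ D → ∀ x, KOp s R D c x → a ≤ vol s.Q D x) : a ≤ volKO s R c := by
  refine le_ciInf fun D => ?_
  rcases Nat.eq_zero_or_pos D with h3 | h3
  · subst h3
    rw [Pool.Agent.Helper29.MX.volK_eq, Pool.Agent.Helper7.RD.volC_zero]
    exact ha
  · obtain ⟨x, hx⟩ := (gaq s.Q D).exists_optfK (Pool.Agent.Helper29.MX.KZ R) (cndR s R c)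
    have h4 : volK s R D c = vol s.Q D x := Pool.Agent.Helper29.MX.volK_of_opt hx
    rw [h4]
    exact h1 D h3 x hx

/-- THE PAIRS OF THE CLASS ARE STABLE -/
theorem CpT.stb (hN : NSLs N) (hST : ∀ m, m < N → STu m) (hg : 1 ≤ g) (hr : 0 < r) (hK : ∀ D, 0 ≤ K D)
    (hIm : ImCl N Cl) (hSub : SubCl Cl)
    (hTr : ∀ (S : Sp) (s : MSys S N (lin g) (Fin r)), Cl S g r s → ∀ (e : ℝ) (he : 0 < e) (h1 : e ≤ 1),
      Cl (S.chg S.tr e he) g r (s.trn e he h1))
    (hGd : ∀ (S : Sp) (g r : ℕ) (s : MSys S N (lin g) (Fin r)), 1 ≤ g → 0 < r → Cl S g r s → UDe (v + 1) s → Gd s)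
    {s : MSys S N (lin g) (Fin r)} {R : ∀ k, Setoid (S.F k).Ω} (hs : CpT Cl v K K' S s R) : Stb 0 s R := by
  intro T p A hA
  have h1 := hs.im' hIm p A hA
  have h2 := hN Cl v g r K K' _ hST hIm hSub hGd (cpT_ttc hg hr hK hIm hSub hTr) _ _ _ h1
  rw [sub_zero]
  exact volKO_ge_of _ _ le_rfl h2

/-- THE COPY IS IN THE CLASS, for any resolution in which the point is literal -/
theorem CpT.cpy {s : MSys S N (lin g) (Fin r)} {R : ∀ k, Setoid (S.F k).Ω} (hs : CpT Cl v K K' S s R)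
    (hSub : SubCl Cl) (hC : Dtm s.Q (rsC R)) (i0 : Fin r) {r' : ℕ} (f : Fin r' → Fin r ⊕ Unit)
    (hf : Function.Surjective f) (R' : ∀ k, Setoid ((cpd (rsC R)).sp.F k).Ω)
    (hR' : KnS R' (s.cpy (rsC R) hC (fun _ : Unit => s.lf i0)).Q.v) :
    CpT Cl v K K' (cpd (rsC R)).sp ((s.cpy (rsC R) hC (fun _ : Unit => s.lf i0)).ren f) R' where
  cl := hSub _ _ _ _ hs.cl _ _ _ _ _ (((Sub.pull s (cpd (rsC R)).p1).union
    (fun _ : Unit => (s.lf i0).cpy (rsC R) hC)).ren hf)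
  lit := hR'
  ud := fun j => by
    show Pool.Agent.Helper29.MX.Ud v (s.cpy (rsC R) hC (fun _ : Unit => s.lf i0)) (f j)
    rcases hj : f j with i | u
    · exact ud_old (hs.ud i) hC _
    · exact ud_new (hs.ud i0) hs.lit hC rfl
  dfc := fun b h0 h1 => dfc_pt (dfc_pull (hs.dfc b h0 h1) (cpd (rsC R)).p1) rfl
  nh := fun D => nhc_cpy hC (hs.nh D) i0 f hf R'

/-- from the K-volumes at the windows -/
theorem cpT_of_vol {s : MSys S N (lin g) (Fin r)} {R : ∀ k, Setoid (S.F k).Ω} (hcl : Cl S g r s) (hR : KnS R s.Q.v)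
    (hud : ∀ j, Pool.Agent.Helper29.MX.Ud v s j) (hdfc : ∀ b : ℝ, 0 < b → b ≤ 1 → Dfc b s) {w : ℝ}
    (hw : ∀ c : ℝ, 0 < c → c ≤ 1 → AllE (fun _ t R' => (N : ℝ) - w * c ≤ volKO t R' c) S s R) :
    CpT Cl v (C3 N) (fun _ => w) S s R where
  cl := hcl
  lit := hR
  ud := hud
  dfc := hdfc
  nh := fun _ => nhc_of_stab' s R w fun c hc hc1 A hA _ hx =>
    (hw c hc hc1 S (Pj.id S) A hA).trans (Pool.Agent.Helper29.MX.volKO_le_of hx)

/-! ### renaming of the types -/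

/-- the volumes of forms of a class of conditions which know each other -/
theorem kad_ren [Finite ι] [Finite κ] {s : MSys S M E ι} {f : κ → ι} (hf : Function.Surjective f) {R : Rsl S} {c : ℝ}
    {x : ∀ k, FD (S.F k) (Mon M D)} : KAd (s.ren f) R D c x ↔ KAd s R D c x := by
  constructor
  · rintro ⟨a, b⟩
    refine ⟨a.mono_of fun i => ?_, b⟩
    rcases i with _ | i
    · exact ⟨none, PLe.refl _⟩
    · obtain ⟨j, rfl⟩ := hf i
      exact ⟨some j, PLe.refl _⟩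
  · rintro ⟨a, b⟩
    refine ⟨a.mono_of fun i => ?_, b⟩
    rcases i with _ | i
    · exact ⟨none, PLe.refl _⟩
    · exact ⟨some (f i), PLe.refl _⟩

theorem volKO_ren [Finite ι] [Finite κ] (s : MSys S M E ι) {f : κ → ι} (hf : Function.Surjective f) (R : Rsl S)
    (c : ℝ) : volKO (s.ren f) R c = volKO s R c := by
  refine iInf_congr fun D => ?_
  have e1 : {v | ∃ x : ∀ k, FD (S.F k) (Mon M D), KAd (s.ren f) R D c x ∧ v = vol (s.ren f).Q D x} =
      {v | ∃ x : ∀ k, FD (S.F k) (Mon M D), KAd s R D c x ∧ v = vol s.Q D x} := by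
    ext v
    constructor
    · rintro ⟨x, hx, h1⟩
      exact ⟨x, (kad_ren hf).mp hx, h1⟩
    · rintro ⟨x, hx, h1⟩
      exact ⟨x, (kad_ren hf).mpr hx, h1⟩
  exact congrArg sInf e1

theorem stb_ren [Finite ι] [Finite κ] {s : MSys S M E ι} {f : κ → ι} (hf : Function.Surjective f) {R : Rsl S} {ε : ℝ} :
    Stb ε (s.ren f) R ↔ Stb ε s R := by
  constructor
  · intro hs T p A hA
    exact (hs T p A hA).trans (le_of_eq (volKO_ren (s.im p A hA) hf R 0))
  · intro hs T p A hA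
    exact (hs T p A hA).trans (le_of_eq (volKO_ren (s.im p A hA) hf R 0).symm)

/-- **[COPY0]** Let `(s, R)` be a pair whose K-volumes at the windows `c` are at least `N - w * c` on all events, with `v`
unit directions and deficient at all levels. Then the system with the copy of one type given `R` is STABLE for all
resolutions in which the point is literal, in particular for the type-labels (`rbot`). -/
theorem copy0 (hN : NSLs N) (hST : ∀ m, m < N → STu m) (hg : 1 ≤ g) (hIm : ImCl N Cl) (hSub : SubCl Cl)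
    (hTr : ∀ (S : Sp) (g r : ℕ) (s : MSys S N (lin g) (Fin r)), Cl S g r s → ∀ (e : ℝ) (he : 0 < e) (h1 : e ≤ 1),
      Cl (S.chg S.tr e he) g r (s.trn e he h1))
    (hGd : ∀ (S : Sp) (g r : ℕ) (s : MSys S N (lin g) (Fin r)), 1 ≤ g → 0 < r → Cl S g r s → UDe (v + 1) s → Gd s)
    {s : MSys S N (lin g) (Fin r)} {R : ∀ k, Setoid (S.F k).Ω} (hcl : Cl S g r s) (hR : KnS R s.Q.v)
    (hud : ∀ j, Pool.Agent.Helper29.MX.Ud v s j) (hdfc : ∀ b : ℝ, 0 < b → b ≤ 1 → Dfc b s) {w : ℝ}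
    (hw : ∀ c : ℝ, 0 < c → c ≤ 1 → AllE (fun _ t R' => (N : ℝ) - w * c ≤ volKO t R' c) S s R)
    (hC : Dtm s.Q (rsC R)) (i0 : Fin r) {r' : ℕ} (f : Fin r' → Fin r ⊕ Unit) (hf : Function.Surjective f) :
    Stb 0 ((s.cpy (rsC R) hC (fun _ : Unit => s.lf i0)).ren f) (rbot _) := by
  have h1 : CpT Cl v (C3 N) (fun _ => w) S s R := cpT_of_vol hcl hR hud hdfc hw
  have h2 : CpT Cl v (C3 N) (fun _ => w) (cpd (rsC R)).sp ((s.cpy (rsC R) hC (fun _ : Unit => s.lf i0)).ren f)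
      (rbot _) := h1.cpy hSub hC i0 f hf _ (Eventually.of_forall fun k ω ω' _ _ _ hw => by
    have e1 : ω = ω' := hw
    rw [e1])
  obtain ⟨j0, _⟩ := hf (Sum.inl i0)
  exact h2.stb hN hST hg (lt_of_le_of_lt (Nat.zero_le _) j0.2) (fun D => C3_nonneg N D) hIm hSub
    (fun S s => hTr S g r' s) hGd

/-- [COPY0], types `Fin r ⊕ Unit` -/
theorem copy0' (hN : NSLs N) (hST : ∀ m, m < N → STu m) (hg : 1 ≤ g) (hIm : ImCl N Cl) (hSub : SubCl Cl)
    (hTr : ∀ (S : Sp) (g r : ℕ) (s : MSys S N (lin g) (Fin r)), Cl S g r s → ∀ (e : ℝ) (he : 0 < e) (h1 : e ≤ 1),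
      Cl (S.chg S.tr e he) g r (s.trn e he h1))
    (hGd : ∀ (S : Sp) (g r : ℕ) (s : MSys S N (lin g) (Fin r)), 1 ≤ g → 0 < r → Cl S g r s → UDe (v + 1) s → Gd s)
    {s : MSys S N (lin g) (Fin r)} {R : ∀ k, Setoid (S.F k).Ω} (hcl : Cl S g r s) (hR : KnS R s.Q.v)
    (hud : ∀ j, Pool.Agent.Helper29.MX.Ud v s j) (hdfc : ∀ b : ℝ, 0 < b → b ≤ 1 → Dfc b s) {w : ℝ}
    (hw : ∀ c : ℝ, 0 < c → c ≤ 1 → AllE (fun _ t R' => (N : ℝ) - w * c ≤ volKO t R' c) S s R)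
    (hC : Dtm s.Q (rsC R)) (i0 : Fin r) : Stb 0 (s.cpy (rsC R) hC (fun _ : Unit => s.lf i0)) (rbot _) := by
  have e0 : Fin r ⊕ Unit ≃ Fin (r + 1) := (Equiv.sumCongr (Equiv.refl _) finOneEquiv.symm).trans finSumFinEquiv
  exact (stb_ren e0.symm.surjective).mp (copy0 hN hST hg hIm hSub hTr hGd hcl hR hud hdfc hw hC i0 e0.symm
    e0.symm.surjective)

end

end Pool.Agent.Helper8.CPY
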