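import Pool.Agent.Helper8.CPY.Cpx
import Pool.Agent.Helper18.MCU.Dvx
import Pool.Agent.Helper52.MW.Ime
import Pool.Agent.Helper99.MX.Mci
import Pool.Agent.Helper48.ROK.Cars

/-! [CPYR], ASSEMBLY: the system with the copy of one type given the deep resolution is in the joint class, for the
type-labels. -/

set_option autoImplicit false

namespace Pool.Agent.Helper8.CPY

open Finset Filter Topology Matrix Pool.Agent.Helper69.RK Pool.Agent.Helper31.EC Pool.Agent.Helper31.EC.Sp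
open Pool.Agent.Helper40.EL Pool.Agent.Helper84.MT
open Pool.Agent.Helper3.LF Pool.Agent.Helper89.LX
open Pool.Agent.Helper81.CPY (rsC ker_rsC Dtm_rsC cR frmP frmI pj_dl)
open Pool.Agent.Helper29.MX (Rsl AllE rbot Pt Inv CvK Mc Num Tot Car Dfx Vsx JT CPYR volKO volP)
open Pool.Agent.Helper36.AM (Frm MCl)
open Pool.Agent.Helper18.MCU (clF)
open Pool.Agent.Helper94.SEL (Ctx)

noncomputable section

variable {S T T' : Sp} {N M g r v m : ℕ} {E : ℕ → ℕ} {ι κ : Type}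

/-- the types of the copy -/
def ixc (r : ℕ) (j : Fin (r + 1)) : Fin r ⊕ Unit := Sum.map id (fun _ : Fin 1 => ()) ((finSumFinEquiv (m := r) (n := 1)).symm j)

theorem ixc_surj (r : ℕ) : Function.Surjective (ixc r) := by
  rintro (i | u)
  · refine ⟨finSumFinEquiv (Sum.inl i), ?_⟩
    unfold ixc
    rw [Equiv.symm_apply_apply]
    rfl
  · refine ⟨finSumFinEquiv (Sum.inr 0), ?_⟩
    unfold ixc
    rw [Equiv.symm_apply_apply]
    rfl

theorem cp1_unit (s : MSys S N E (Fin r)) (R : Rsl S) (hC : Dtm s.Q (rsC R)) (i0 : Fin r) :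
    cp1 s R hC i0 = (s.cpy (rsC R) hC (fun _ : Unit => s.lf i0)).ren (ixc r) := by
  have h1 : (cp1 s R hC i0).lf = ((s.cpy (rsC R) hC (fun _ : Unit => s.lf i0)).ren (ixc r)).lf := by
    funext j
    show (s.cpy (rsC R) hC (fun _ : Fin 1 => s.lf i0)).lf (finSumFinEquiv.symm j) =
      (s.cpy (rsC R) hC (fun _ : Unit => s.lf i0)).lf (ixc r j)
    unfold ixc
    rcases finSumFinEquiv.symm j with i | u <;> rfl
  exact congrArg (fun l => (⟨(cpd (rsC R)).p1.vv s.Q, l⟩ : MSys (cpd (rsC R)).sp N E (Fin (r + 1)))) h1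

/-- ROW [CPN] (helper70): THE NUMBERS OF THE COPY -/
def CPN (M : ℕ) : Prop := ∀ (A : MCl (M + 1)) (C : ℕ → MCl (M + 1)) (v : ℕ), Ctx M A C v →
  ∀ (m g r : ℕ) (w : Fin (M + 1) → ℝ) (ρ : ℝ), (∀ i, 1 ≤ w i) → 0 < ρ → ∀ (S : Sp)
    (s : MSys S (M + 1) (lin g) (Fin r)) (R : Rsl S), JT (C m) v g r w ρ S s R → ∀ (hC : Dtm s.Q (rsC R)) (i0 : Fin r)
      (e : Fin (r + 1) → Fin r ⊕ Unit), Function.Surjective e →
      AllE (fun _ t R' => Num w t R') _ ((s.cpy (rsC R) hC (fun _ : Unit => s.lf i0)).ren e) (rbot _)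

/-- the least carrier of the copy -/
theorem mc_cp1 {s : MSys S N E (Fin r)} {R : Rsl S} {w : Fin N → ℝ} {c : ℝ} {X : Rsl S}
    (hw : ∀ i, 1 ≤ w i) (h0 : 0 ≤ c) (hc : ∀ i, w i * c < 1) (hC : Dtm s.Q (rsC R)) (i0 : Fin r)
    (hT : (N : ℝ) - (∑ i, w i) * c ≤ volKO (cp1 s R hC i0) (rbot _) c) (hX : Mc s R w c X) :
    Mc (cp1 s R hC i0) (rbot _) w c ((cpd (rsC R)).p1.pb X) := by
  obtain ⟨κ, hκ⟩ : ∃ κ : ℕ, ∀ j, w j ≤ κ := by
    obtain ⟨κ, hκ⟩ := exists_nat_ge (∑ j, w j)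
    exact ⟨κ, fun j => (Finset.single_le_sum (fun i _ => zero_le_one.trans (hw i)) (Finset.mem_univ j)).trans hκ⟩
  obtain ⟨f⟩ := hX.fr
  have h1 : Pool.Agent.Helper99.MX.CAN f ((κ + 1) ^ N) κ :=
    Pool.Agent.Helper99.MX.mcn hw hκ h0 (fun j => (hc j).le) hX f le_rfl
  have h2 : Pool.Agent.Helper99.MX.CAN (frq (cpd (rsC R)).p1 f) ((κ + 1) ^ N) κ := can_pull (cpd (rsC R)).p1 f _ _ h1
  exact Pool.Agent.Helper99.MX.mcc (s := cp1 s R hC i0) hw hκ h0 hc hT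
    (Eventually.of_forall fun k => inf_le_left.trans bot_le) (klb_cp1 s hC i0 hX.lit hX.kl)
    (frq (cpd (rsC R)).p1 f) h2

variable {A : MCl (M + 1)} {C : ℕ → MCl (M + 1)} {w : Fin (M + 1) → ℝ} {ρ : ℝ}

/-- [CPYR] -/
theorem cpyr_of (hN : CPN M) : CPYR M := by
  intro A C v hctx m g r w ρ hw hρ S s R hJ
  obtain ⟨hcl, hpol, hnum, hcar, hdfx, hvsx⟩ := hJ
  have hJ : JT (C m) v g r w ρ S s R := ⟨hcl, hpol, hnum, hcar, hdfx, hvsx⟩
  have hP : Pt s R := hcl.2.1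
  obtain ⟨i0⟩ := hcl.2.2.1
  have hD : Dtm s.Q (rsC R) := dtm_pt hP
  have htot : AllE (fun _ t R' => Tot w t R') S s R := fun T p A hA => Pool.Agent.Helper48.ROK.Num.tot (hnum T p A hA)
  have hnn : AllE (fun _ t R' => Num w t R') _ (cp1 s R hD i0) (rbot _) := by
    rw [cp1_unit]
    exact hN A C v hctx m g r w ρ hw hρ S s R hJ hD i0 (ixc r) (ixc_surj r)
  have hnt : AllE (fun _ t R' => Num w t R' ∧ Tot w t R') _ (cp1 s R hD i0) (rbot _) := fun T p A hA =>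
    ⟨hnn T p A hA, Pool.Agent.Helper48.ROK.Num.tot (hnn T p A hA)⟩
  have hTs : Tot w s R := Pool.Agent.Helper52.MW.AllE_self htot
  have hCs : Car w s R := Pool.Agent.Helper52.MW.AllE_self hcar
  have hTt : Tot w (cp1 s R hD i0) (rbot _) := (Pool.Agent.Helper52.MW.AllE_self hnt).2
  -- the least carriers of the copy, on all events
  have key : ∀ (T : Sp) (p : Pj T (cpd (rsC R)).sp) (B : ∀ k, (T.F k).Ω → Prop) (hB : 0 < ul (T.pr B)) (c : ℝ),
      0 ≤ c → (∀ i, w i * c < 1) → ∀ X, Mc s R w c X →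
        Mc ((cp1 s R hD i0).im p B hB) (rbot _) w c ((cpd (rsC R)).p1.pb X) := by
    intro T p B hB c h0 hc X hX
    have h1 := mc_cp1 hw h0 hc hD i0 (le_of_eq (hTt c h0 hc).symm) hX
    exact Pool.Agent.Helper99.MX.mci p B hB hw h0 hc (le_of_eq ((hnt T p B hB).2 c h0 hc).symm) h1
  refine ⟨_, cp1 s R hD i0, ⟨⟨cp1_clm hctx.ok hcl.1 R hD i0, pt_bot _, cp1_inv hcl.2.2 hP hD i0⟩,
    cp1_pol (fun _ => Nat.cast_nonneg g) hpol R hD i0, fun T p B hB => (hnt T p B hB).1, ?_, ?_, ?_⟩⟩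
  · intro T p B hB c h0 hc
    obtain ⟨X, hX⟩ := hCs c h0 hc
    exact ⟨_, key T p B hB c h0 hc X hX⟩
  · intro T p B hB
    refine Pool.Agent.Helper18.MCU.dfx_of 0 (pt_bot _) hw (hnt T p B hB).2 fun c h0 hc => ?_
    obtain ⟨X, hX⟩ := hCs c h0 hc
    obtain ⟨f⟩ := hX.fr
    refine ⟨_, key T p B hB c h0 hc X hX, frmI p B (frq (cpd (rsC R)).p1 f), fun e he hwe => ?_⟩
    have h1 : Mc (s.im (p.comp (cpd (rsC R)).p1) B hB) R w c X := Pool.Agent.Helper99.MX.mci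
      (p.comp (cpd (rsC R)).p1) B hB hw h0 hc (le_of_eq (htot T (p.comp (cpd (rsC R)).p1) B hB c h0 hc).symm) hX
    have h2 := hdfx T (p.comp (cpd (rsC R)).p1) B hB c h0 hc X h1 (frmI (p.comp (cpd (rsC R)).p1) B f) e he hwe
    have h3 := dfx_tr (cpd (rsC R)).p1 p B f e
    exact (le_of_eq (congrArg ul h3)).trans h2
  · intro T p B hB
    refine Pool.Agent.Helper18.MCU.vsx_of 0 (pt_bot _) hw (hnt T p B hB).2 fun c c' h0 hcc hc' => ?_
    have hc : ∀ i, w i * c < 1 := fun i =>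
      lt_of_le_of_lt (mul_le_mul_of_nonneg_left hcc (zero_le_one.trans (hw i))) (hc' i)
    have h0' : 0 ≤ c' := h0.trans hcc
    obtain ⟨X, hX⟩ := hCs c h0 hc
    obtain ⟨X', hX'⟩ := hCs c' h0' hc'
    obtain ⟨f⟩ := hX.fr
    refine ⟨_, _, key T p B hB c h0 hc X hX, key T p B hB c' h0' hc' X' hX',
      frmI p B (frq (cpd (rsC R)).p1 f), fun e he hwe hwd => ?_⟩
    have h1 : Mc (s.im (p.comp (cpd (rsC R)).p1) B hB) R w c X := Pool.Agent.Helper99.MX.mci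
      (p.comp (cpd (rsC R)).p1) B hB hw h0 hc (le_of_eq (htot T (p.comp (cpd (rsC R)).p1) B hB c h0 hc).symm) hX
    have h1' : Mc (s.im (p.comp (cpd (rsC R)).p1) B hB) R w c' X' := Pool.Agent.Helper99.MX.mci
      (p.comp (cpd (rsC R)).p1) B hB hw h0' hc' (le_of_eq (htot T (p.comp (cpd (rsC R)).p1) B hB c' h0' hc').symm) hX'
    have h2 := hvsx T (p.comp (cpd (rsC R)).p1) B hB c c' h0 hcc hc' X X' h1 h1'
      (frmI (p.comp (cpd (rsC R)).p1) B f) e he hwe hwd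
    have h3 := vsx_tr (cpd (rsC R)).p1 p B X' f e
    exact Tendsto.congr (fun k => (congrFun h3 k).symm) h2

end

end Pool.Agent.Helper8.CPY
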