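import Pool.Agent.Helper8.CPY.Okh
import Pool.Agent.Helper29.MX.St2

/-! [COPY], the members of the joint class: class, resolution, unit directions, polynomial charts of the system with the
copy of one type. -/

set_option autoImplicit false

namespace Pool.Agent.Helper8.CPY

open Finset Filter Topology Matrix Pool.Agent.Helper69.RK Pool.Agent.Helper31.EC Pool.Agent.Helper31.EC.Sp
open Pool.Agent.Helper40.EL Pool.Agent.Helper84.MT Pool.Agent.Helper87.NSL Pool.Agent.Helper38.NSL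
open Pool.Agent.Helper3.LF Pool.Agent.Helper89.LX
open Pool.Agent.Helper81.CPY (rsC ker_rsC Dtm_rsC cR)
open Pool.Agent.Helper29.MX (Rsl Dfc Stb AllE KAd KOp volKO volK rbot OkA Okc Cv CvK Inv Pt vis Num Tot Car Dfx Vsx Mc JT)
open Pool.Agent.Helper36.AM (MCl STu STO Frm)
open Pool.Agent.Helper26.OUT (WDs)

noncomputable section

variable {S T : Sp} {N M v g r : ℕ} {E : ℕ → ℕ} {ι κ : Type}

/-- THE COPY OF ONE TYPE given the resolution, types `Fin (r + 1)` -/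
def cp1 (s : MSys S M E (Fin r)) (R : Rsl S) (hC : Dtm s.Q (rsC R)) (i0 : Fin r) : MSys (cpd (rsC R)).sp M E (Fin (r + 1)) :=
  (s.cpy (rsC R) hC (fun _ : Fin 1 => s.lf i0)).ren (finSumFinEquiv (m := r) (n := 1)).symm

theorem cp1_Q (s : MSys S M E (Fin r)) (R : Rsl S) (hC : Dtm s.Q (rsC R)) (i0 : Fin r) :
    (cp1 s R hC i0).Q = (cpd (rsC R)).p1.vv s.Q := rfl

theorem cp1_old (s : MSys S M E (Fin r)) (R : Rsl S) (hC : Dtm s.Q (rsC R)) (i0 i : Fin r) :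
    (cp1 s R hC i0).lf (Fin.castAdd 1 i) = (s.lf i).pull (cpd (rsC R)).p1 := by
  show (s.cpy (rsC R) hC (fun _ : Fin 1 => s.lf i0)).lf (finSumFinEquiv.symm (Fin.castAdd 1 i)) = _
  rw [finSumFinEquiv_symm_apply_castAdd]
  rfl

theorem cp1_cl {A : MCl N} {s : MSys S N (lin g) (Fin r)} (hA : OkA N A) (hs : A S g r s) (R : Rsl S)
    (hC : Dtm s.Q (rsC R)) (i0 : Fin r) : A (cpd (rsC R)).sp g (r + 1) (cp1 s R hC i0) :=
  hA.add S g r s hs _ (cpd (rsC R)).p1 g (r + 1) (fun _ => le_rfl) (cp1 s R hC i0).lf (Fin.castAdd 1) fun i =>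
    cp1_old s R hC i0 i

theorem cp1_clm {A : MCl N} {C : ℕ → MCl N} {m : ℕ} {s : MSys S N (lin g) (Fin r)} (hA : Okc N A C)
    (hs : C m S g r s) (R : Rsl S) (hC : Dtm s.Q (rsC R)) (i0 : Fin r) :
    C m (cpd (rsC R)).sp g (r + 1) (cp1 s R hC i0) :=
  hA.add m S g r s hs _ (cpd (rsC R)).p1 g (r + 1) (fun _ => le_rfl) (cp1 s R hC i0).lf (Fin.castAdd 1) fun i =>
    cp1_old s R hC i0 i

theorem pt_bot (s : MSys S M E ι) : Pt s (rbot S) := Eventually.of_forall fun k ω ω' _ _ _ hw => by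
  have e1 : ω = ω' := hw
  rw [e1]

theorem dtm_pt {s : MSys S M E ι} {R : Rsl S} (hR : Pt s R) : Dtm s.Q (rsC R) := by
  filter_upwards [hR] with k hk ω ω' a b hz hc
  have h1 := hk ω ω' a b hz (Quotient.exact hc)
  unfold Sp.VV.cellv
  rw [h1]

theorem cp1_inv {s : MSys S M E (Fin r)} (hI : Inv v s) {R : Rsl S} (hR : Pt s R) (hC : Dtm s.Q (rsC R)) (i0 : Fin r) :
    Inv v (cp1 s R hC i0) := by
  refine ⟨⟨0⟩, fun j => ?_⟩
  show Pool.Agent.Helper29.MX.Ud v (s.cpy (rsC R) hC (fun _ : Fin 1 => s.lf i0)) (finSumFinEquiv.symm j)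
  rcases hj : finSumFinEquiv.symm j with i | u
  · exact ud_old (hI.2 i) hC _
  · exact ud_new (hI.2 i0) hR hC rfl

theorem cp1_pol {w : Fin M → ℝ} (hw : ∀ j, 0 ≤ w j) {s : MSys S M E (Fin r)} (hs : WDs w s) (R : Rsl S)
    (hC : Dtm s.Q (rsC R)) (i0 : Fin r) : WDs w (cp1 s R hC i0) :=
  (Pool.Agent.Helper26.OUT.WDs.add hw hs (cpd (rsC R)).p1 fun _ =>
    (((Pool.Agent.Helper26.OUT.WDs_iff hw).mp hs i0).pull (cpd (rsC R)).p2 :)).ren _

/-! ### literal labels of the copy -/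

theorem cp1_win (s : MSys S M E (Fin r)) (R : Rsl S) (hC : Dtm s.Q (rsC R)) (i0 : Fin r) (c : ℝ) (j : Fin (r + 1)) :
    (∃ i, ((cp1 s R hC i0).lf j).win c = ((s.lf i).win c).pull (cpd (rsC R)).p1) ∨
      ((cp1 s R hC i0).lf j).win c = ((s.lf i0).win c).pull (cpd (rsC R)).p2 := by
  have e1 : ((cp1 s R hC i0).lf j).win c =
      ((s.cpy (rsC R) hC (fun _ : Fin 1 => s.lf i0)).lf (finSumFinEquiv.symm j)).win c := rfl
  rw [e1]
  rcases finSumFinEquiv.symm j with i | u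
  · exact Or.inl ⟨i, win_pull (cpd (rsC R)).p1 (s.lf i) c⟩
  · exact Or.inr ((s.lf i0).cpy_win (rsC R) hC c)

/-- functions of the resolution and of the base are the same on both sides -/
theorem ple_common {R X : Rsl S} (hl : ∀ᶠ k in UF, R k ⊓ (S.F k).Z ≤ X k) {W : Part S}
    (h1 : PLe (fun k => fc (X k)) W) : PLe (fun k => fc ((cpd (rsC R)).p1.pb X k)) (W.pull (cpd (rsC R)).p2) := by
  have h2 := PLe_pull h1 (cpd (rsC R)).p2
  refine PLe.trans (PLe_of_ev ?_) h2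
  filter_upwards [hl] with k hk
  have h3 := cpd_common (rsC R) k (X k) fun ω ω' _ _ hz hc => hk ⟨Quotient.exact hc, hz⟩
  exact le_of_eq h3

/-- LITERAL K-LABELS OF `s` ARE TYPE-LABELS OF THE SYSTEM WITH THE COPY -/
theorem tlb_cp1 (s : MSys S M E (Fin r)) {R : Rsl S} (hC : Dtm s.Q (rsC R)) (i0 : Fin r) {c : ℝ} {X : Rsl S}
    (hl : ∀ᶠ k in UF, R k ⊓ (S.F k).Z ≤ X k) (hk : Pool.Agent.Helper29.MX.KLb s R c (Lab.ofZ X)) :
    Pool.Agent.Helper29.MX.TLb (cp1 s R hC i0) c (Lab.ofZ ((cpd (rsC R)).p1.pb X)) := by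
  have h0 : ∀ i, PLe (fun k => fc (X k)) ((s.lf i).win c) := fun i => (Lab.ofZ_DMf X).mp hk.1 (some i)
  refine (Lab.ofZ_DMf (A := fun j => ((cp1 s R hC i0).lf j).win c) ((cpd (rsC R)).p1.pb X)).mpr fun j => ?_
  rcases cp1_win s R hC i0 c j with ⟨i, e⟩ | e
  · show PLe _ (((cp1 s R hC i0).lf j).win c)
    rw [e]
    exact PLe_pull (h0 i) (cpd (rsC R)).p1
  · show PLe _ (((cp1 s R hC i0).lf j).win c)
    rw [e]
    exact ple_common hl (h0 i0)

theorem klb_cp1 (s : MSys S M E (Fin r)) {R : Rsl S} (hC : Dtm s.Q (rsC R)) (i0 : Fin r) {c : ℝ} {X : Rsl S}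
    (hl : ∀ᶠ k in UF, R k ⊓ (S.F k).Z ≤ X k) (hk : Pool.Agent.Helper29.MX.KLb s R c (Lab.ofZ X)) :
    Pool.Agent.Helper29.MX.KLb (cp1 s R hC i0) (rbot _) c (Lab.ofZ ((cpd (rsC R)).p1.pb X)) :=
  (Pool.Agent.Helper29.MX.tlb_iff _ _ _).mpr (tlb_cp1 s hC i0 hl hk)

end

end Pool.Agent.Helper8.CPY
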