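import Pool.Agent.Helper8.CPY.Cpr
import Pool.Agent.Helper81.CPY.Zmc
import Pool.Agent.Helper95.VIS.Ma
import Pool.Agent.Helper26.BXD.Use

/-! [COPY]: entropies of cells of frames over literal labels, on extensions and their events. -/

set_option autoImplicit false

namespace Pool.Agent.Helper8.CPY

open Finset Filter Topology Matrix Pool.Agent.Helper69.RK Pool.Agent.Helper31.EC Pool.Agent.Helper31.EC.Sp
open Pool.Agent.Helper40.EL Pool.Agent.Helper84.MT
open Pool.Agent.Helper3.LF Pool.Agent.Helper89.LX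
open Pool.Agent.Helper81.CPY (rsC ker_rsC Dtm_rsC cR frmP frmI pj_dl)
open Pool.Agent.Helper29.MX (Rsl)
open Pool.Agent.Helper36.AM (Frm)
open Pool.Agent.Helper3.MX (imc)

noncomputable section

variable {S T T' : Sp} {N M : ℕ} {E : ℕ → ℕ} {ι κ : Type}

/-- the cells of the box of a frame over a literal label -/
@[instance_reducible] def fcl {Q : S.VV M} {X : Rsl S} {La : Fin M → ℝ} (f : Frm Q (Lab.ofZ X) La) (e : ℝ) : Rsl S :=
  fun k => Setoid.ker (f.X.cellv e k)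

/-- the pulled frame -/
def frq (q : Pj T S) {Q : S.VV M} {X : Rsl S} {La : Fin M → ℝ} (f : Frm Q (Lab.ofZ X) La) :
    Frm (q.vv Q) (Lab.ofZ (q.pb X)) La := frmP q (fun _ _ _ _ _ _ => Iff.rfl) f

theorem fcl_im (p : Pj T S) (A : ∀ k, (T.F k).Ω → Prop) {Q : S.VV M} {X : Rsl S} {La : Fin M → ℝ}
    (f : Frm Q (Lab.ofZ X) La) (e : ℝ) (k : ℕ) : fcl (frmI p A f) e k = fcl f e k := rfl

theorem fcl_pull (q : Pj T S) {Q : S.VV M} {X : Rsl S} {La : Fin M → ℝ} (f : Frm Q (Lab.ofZ X) La) (e : ℝ) (k : ℕ) :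
    fcl (frq q f) e k = Setoid.comap (q.π k) (fcl f e k) := by
  have h1 : (q.vv f.X).cellv e k = fun ω => f.X.cellv e k (q.π k ω) := vv_cellv q f.X e k
  show Setoid.ker ((q.vv f.X).cellv e k) = _
  rw [h1]
  rfl

/-- the number of the deficit, in the space -/
theorem dfx_eq {Q : S.VV M} {X : Rsl S} {La : Fin M → ℝ} (f : Frm Q (Lab.ofZ X) La) (e : ℝ) (k : ℕ) :
    h (fc (Setoid.ker (f.X.cellv e k)) : FL (Lab.ofZ X k).T) (Lab.ofZ X k).v = h (fc (fcl f e k)) (fc (X k)) := rfl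

/-- the number of the visibility, in the space -/
theorem vsx_eq {Q : S.VV M} {X X' : Rsl S} {La : Fin M → ℝ} (f : Frm Q (Lab.ofZ X) La) (e : ℝ) (k : ℕ) :
    h ((Lab.ofZ X k).p.map (fc (X' k))) ((Lab.ofZ X k).v ⊔ (fc (Setoid.ker (f.X.cellv e k)) : FL (Lab.ofZ X k).T)) =
      h (fc (X' k)) (fc (X k) ⊔ fc (fcl f e k)) := rfl

/-- entropies of pulled partitions on an event of an extension -/
theorem h_imc (q : Pj T S) (p : Pj T' T) (A : ∀ k, (T'.F k).Ω → Prop) (k : ℕ) (Y Y' : Setoid (S.F k).Ω) :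
    h (fc (F := (Sp.im p A).F k) (Setoid.comap (q.π k) Y)) (fc (Setoid.comap (q.π k) Y')) =
      h (fc (F := (Sp.im (p.comp q) A).F k) Y) (fc Y') := by
  have h1 := ((imc q p A).fp k).h_map (fc (F := (Sp.im (p.comp q) A).F k) Y) (fc Y')
  exact h1

/-- ... with two conditions -/
theorem h_imc2 (q : Pj T S) (p : Pj T' T) (A : ∀ k, (T'.F k).Ω → Prop) (k : ℕ) (Y Y' Y'' : Setoid (S.F k).Ω) :
    h (fc (F := (Sp.im p A).F k) (Setoid.comap (q.π k) Y))
        (fc (Setoid.comap (q.π k) Y') ⊔ fc (Setoid.comap (q.π k) Y'')) =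
      h (fc (F := (Sp.im (p.comp q) A).F k) Y) (fc Y' ⊔ fc Y'') := by
  have h1 := ((imc q p A).fp k).h_map (fc (F := (Sp.im (p.comp q) A).F k) Y) (fc Y' ⊔ fc Y'')
  rw [((imc q p A).fp k).map_sup] at h1
  exact h1

/-! ### the form of the box -/

open Pool.Agent.Helper26.BXD (gfm fP_ev fP scl)
open Pool.Agent.Helper95.VIS (rdm)

theorem scl_pull (q : Pj T S) (La : Fin M → ℝ) (k : ℕ) : scl La T k = scl La S k := funext fun i => pj_dl q (La i) k

theorem gfm_pull (q : Pj T S) {Q : S.VV M} {X : Rsl S} {La : Fin M → ℝ} (f : Frm Q (Lab.ofZ X) La) (D κ : ℕ) :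
    ∀ᶠ k in UF, ∀ ω : (T.F k).Ω, gfm (frq q f) D κ k ω = gfm f D κ k (q.π k ω) := by
  filter_upwards [fP_ev f, fP_ev (frq q f)] with k a b ω
  have e1 : fP (frq q f) k ω = fP f k (q.π k ω) := (b ω).trans (a (q.π k ω)).symm
  show Pool.Agent.Helper26.BXD.gch D (D * (κ + 1)) (fP (frq q f) k ω) (scl La T k) =
    Pool.Agent.Helper26.BXD.gch D (D * (κ + 1)) (fP f k (q.π k ω)) (scl La S k)
  rw [e1, scl_pull q]

/-- THE CANONICAL PARTITION of the box on extensions -/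
theorem can_pull (q : Pj T S) {Q : S.VV M} {X : Rsl S} {La : Fin M → ℝ} (f : Frm Q (Lab.ofZ X) La) (D κ : ℕ)
    (hc : Nul S fun k => h (fc (X k)) (fc (Setoid.ker fun ω : (S.F k).Ω => rdm (S.F k).n (gfm f D κ k ω)))) :
    Nul T fun k => h (fc (q.pb X k)) (fc (Setoid.ker fun ω : (T.F k).Ω => rdm (T.F k).n (gfm (frq q f) D κ k ω))) := by
  refine Tendsto.congr' ?_ hc
  filter_upwards [gfm_pull q f D κ] with k hk
  have e1 : (fun ω : (T.F k).Ω => rdm (T.F k).n (gfm (frq q f) D κ k ω)) =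
      fun ω => rdm (S.F k).n (gfm f D κ k (q.π k ω)) := by
    funext ω
    have e2 := q.hn k
    rw [e2]
    exact congrArg _ (hk ω)
  have h1 := (q.fp k).h_map (fc (X k)) (fc (Setoid.ker fun ω : (S.F k).Ω => rdm (S.F k).n (gfm f D κ k ω)))
  have e3 : (q.fp k).map (fc (Setoid.ker fun ω : (S.F k).Ω => rdm (S.F k).n (gfm f D κ k ω))) =
      fc (Setoid.ker fun ω : (T.F k).Ω => rdm (T.F k).n (gfm (frq q f) D κ k ω)) := by
    rw [e1]
    rfl
  rw [e3] at h1
  have e4 : (q.fp k).map (fc (X k)) = fc (q.pb X k) := rfl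
  rw [e4] at h1
  rw [h1, q.hn k]

/-! ### transfer of the numbers to events of extensions of the extension -/

/-- THE DEFICIT -/
theorem dfx_tr (q : Pj T S) (p : Pj T' T) (A : ∀ k, (T'.F k).Ω → Prop) {Q : S.VV M} {X : Rsl S} {La : Fin M → ℝ}
    (f : Frm Q (Lab.ofZ X) La) (e : ℝ) :
    (fun k => h (fc (F := (Sp.im p A).F k) (fcl (frq q f) e k)) (fc (q.pb X k)) / ((Sp.im p A).F k).n) =
      fun k => h (fc (F := (Sp.im (p.comp q) A).F k) (fcl f e k)) (fc (X k)) / ((Sp.im (p.comp q) A).F k).n := by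
  funext k
  rw [fcl_pull q f e k]
  have h1 := h_imc q p A k (fcl f e k) (X k)
  have h2 : ((Sp.im p A).F k).n = ((Sp.im (p.comp q) A).F k).n := (imc q p A).hn k
  rw [h2]
  exact congrArg (fun x => x / ((Sp.im (p.comp q) A).F k).n) h1

/-- THE VISIBILITY -/
theorem vsx_tr (q : Pj T S) (p : Pj T' T) (A : ∀ k, (T'.F k).Ω → Prop) {Q : S.VV M} {X : Rsl S} (X' : Rsl S)
    {La : Fin M → ℝ} (f : Frm Q (Lab.ofZ X) La) (e : ℝ) :
    (fun k => h (fc (F := (Sp.im p A).F k) (q.pb X' k)) (fc (q.pb X k) ⊔ fc (fcl (frq q f) e k)) /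
      ((Sp.im p A).F k).n) =
      fun k => h (fc (F := (Sp.im (p.comp q) A).F k) (X' k)) (fc (X k) ⊔ fc (fcl f e k)) /
        ((Sp.im (p.comp q) A).F k).n := by
  funext k
  rw [fcl_pull q f e k]
  have h1 := h_imc2 q p A k (X' k) (X k) (fcl f e k)
  have h2 : ((Sp.im p A).F k).n = ((Sp.im (p.comp q) A).F k).n := (imc q p A).hn k
  rw [h2]
  exact congrArg (fun x => x / ((Sp.im (p.comp q) A).F k).n) h1

end

end Pool.Agent.Helper8.CPY
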