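import Pool.Agent.Helper38.NSL.Ht
import Pool.Agent.Helper81.CPY.Inv

/-! [COPY], part 1. THE COPY OF ONE TYPE GIVEN THE RESOLUTION: if the resolution and the windows `c` of all types are
transversal, then the windows `c` of all types of the system with the copy are transversal, without the resolution. -/

set_option autoImplicit false

namespace Pool.Agent.Helper8.CPY

open Finset Filter Topology Matrix Pool.Agent.Helper69.RK Pool.Agent.Helper31.EC Pool.Agent.Helper31.EC.Sp
open Pool.Agent.Helper40.EL Pool.Agent.Helper84.MT Pool.Agent.Helper87.NSL Pool.Agent.Helper38.NSL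
open Pool.Agent.Helper81.CPY (rsC ker_rsC Dtm_rsC cR)

noncomputable section

variable {S T : Sp} {M D : ℕ} {E : ℕ → ℕ} {ι κ κ' : Type}

/-- a partition of the copy is independent of the old space given the resolution, exactly -/
theorem indep_new (R : ∀ k, Setoid (S.F k).Ω) (W : ∀ k, Setoid (S.F k).Ω) (k : ℕ) :
    I (fc ((cpd (rsC R)).p2.pb W k)) ((cpd (rsC R)).p1.fp k).top (((cpd (rsC R)).p1.fp k).map (fc (R k))) = 0 := by
  have h1 := cpd_indep (rsC R) k (fc ⊥) (fc (W k))
  rw [ker_rsC, fp_map_bot, I_comm] at h1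
  exact h1

/-- THE WINDOWS OF THE SYSTEM WITH THE COPY ARE TRANSVERSAL -/
theorem nhet_cpy {s : MSys S M E ι} {R : ∀ k, Setoid (S.F k).Ω} (hC : Dtm s.Q (rsC R)) {c K g₀ : ℝ}
    (h : NHEt s.Q D (optW R fun i => wn s c i) K g₀) (i0 : ι) :
    NHEt (s.cpy (rsC R) hC (fun _ : Unit => s.lf i0)).Q D
      (fun i => wn (s.cpy (rsC R) hC (fun _ : Unit => s.lf i0)) c i) K g₀ := by
  have h1 := h.copy (cpd (rsC R)).p1 ((cpd (rsC R)).p2.pb (wn s c i0))
    (Eventually.of_forall fun k => indep_new R (wn s c i0) k)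
  refine h1.ren (fun o => match o with | none => Sum.inr () | some i => Sum.inl i)
    (Eventually.of_forall fun k o ω ω' _ _ _ hw => ?_)
  cases o with
  | none => exact hw
  | some i => exact hw

/-- the same for any renaming which keeps all types -/
theorem nhet_cpy_ren {s : MSys S M E ι} {R : ∀ k, Setoid (S.F k).Ω} (hC : Dtm s.Q (rsC R)) {c K g₀ : ℝ}
    (h : NHEt s.Q D (optW R fun i => wn s c i) K g₀) (i0 : ι) (f : κ → ι ⊕ Unit) (hf : Function.Surjective f) :
    NHEt ((s.cpy (rsC R) hC (fun _ : Unit => s.lf i0)).ren f).Q D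
      (fun i => wn ((s.cpy (rsC R) hC (fun _ : Unit => s.lf i0)).ren f) c i) K g₀ := by
  have h1 := nhet_cpy hC h i0
  obtain ⟨g, hg⟩ := hf.hasRightInverse
  refine h1.ren g (Eventually.of_forall fun k o ω ω' _ _ _ hw => ?_)
  show wn (s.cpy (rsC R) hC (fun _ : Unit => s.lf i0)) c (f (g o)) k ω ω'
  rw [hg o]
  exact hw

/-- any partition can be added to a transversal family (in particular the finest resolution) -/
theorem nhet_opt {Q : S.VV M} {W : κ → ∀ k, Setoid (S.F k).Ω} {K g₀ : ℝ} (h : NHEt Q D W K g₀)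
    (R : ∀ k, Setoid (S.F k).Ω) : NHEt Q D (optW R W) K g₀ :=
  h.ren some (Eventually.of_forall fun _ _ _ _ _ _ _ hw => hw)

end

end Pool.Agent.Helper8.CPY
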